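import Mathlib
import Pool.Agent.Lib_MP_394d50_gt.Main
import Pool.Agent.Lib_MP_394d50_gt.EMain
import Pool.Agent.Lib_MP_394d50_bary.BTopA
import Pool.Agent.Lib_MP_394d50_bary.BTopB
import Pool.Agent.Lib_MP_394d50_vk.VClassL

set_option autoImplicit false

namespace Pool.Agent.Results.MP_394d50_gt.OrderComplexes

open SingerRA

/-- The Singer conjecture, in all dimensions `n`, for the aspherical (homology) manifolds `Z` whose
universal covering is the Davis complex of the right-angled Coxeter group of a flag homology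
`(n-1)`-sphere `L` which is the order complex of a finite partially ordered set (for instance a
barycentric subdivision of any triangulated or regular CW sphere), or belongs to the class
`Tame3 n`. When `L` is a sphere, `Z` is a closed `n`-manifold. -/
theorem result (n : ℕ) (V : Type) [Fintype V] [LinearOrder V] (G : SimpleGraph V)
    (h : CrossSub n G ∨ (HomSphere n G ∧
      ((∃ (P : Type) (_ : PartialOrder P), Nonempty (compG P ≃g G)) ∨ Tame3 n G))) :
    IsUniversalCover G ∧ IsCubed G ∧
    (∀ k, 2 * k ≠ n → l2Betti G k = 0) ∧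
    (∀ k, 2 * k = n → l2Betti G k = (-1 : ℝ) ^ k * (chi G : ℝ)) ∧
    ((∀ k, l2Betti G k = 0) ↔ chi G = 0) ∧
    ((CrossSub n G ∨ Nonempty (Cone G ≃ₜ (Fin n → ℝ)) ∨
      ∃ (X : Type) (_ : Fintype X) (K : PreAbstractSimplicialComplex X),
        Nonempty (baryG K ≃g G) ∧
        Nonempty (realiz K ≃ₜ Metric.sphere (0 : EuclideanSpace ℝ (Fin n)) 1)) →
      IsClosedManifold n G) := by
  refine ⟨⟨contractible_davis G, isCoveringMap_proj G, surjective_proj G,
    continuous_dact G, proj_eq_iff G, dact_free G⟩, exists_cells G, ?_⟩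
  have h1 : (∀ k, 2 * k ≠ n → l2Betti G k = 0) ∧
      (∀ k, 2 * k = n → l2Betti G k = (-1 : ℝ) ^ k * (chi G : ℝ)) ∧
      ((∀ k, l2Betti G k = 0) ↔ chi G = 0) := by
    rcases h with h | ⟨hS, h⟩
    · exact good_l2 h.good
    · have hT : Tame3 n G := by
        rcases h with ⟨P, _, ⟨e⟩⟩ | h
        · have hP : Finite P := Finite.of_equiv V e.symm.toEquiv
          refine Tame3.iso (tame3_comp n ⟨hP, fun _ _ => ?_⟩) e
          exact HomSphere.iso e.symm hS
        · exact h
      exact l2_of_small (fun k hk => small_of_tame3 hT hS k hk)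
  refine ⟨h1.1, h1.2.1, h1.2.2, ?_⟩
  rintro (h | h | ⟨X, _, K, ⟨e⟩, ⟨f⟩⟩)
  · exact closed_manifold h
  · exact closed_manifold_of_cone h
  · obtain ⟨f1⟩ := cone_bary K
    obtain ⟨f2⟩ := kcone_sphere K n f
    exact closed_manifold_of_cone ⟨((isoHomeo e).symm.trans f1).trans f2⟩

end Pool.Agent.Results.MP_394d50_gt.OrderComplexes
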