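import Mathlib
import Pool.Agent.Lib_MP_394d50_gt.Main
import Pool.Agent.Lib_MP_394d50_gt.EMain

set_option autoImplicit false

namespace Pool.Agent.Lib_MP_394d50_gt.Old.SubdividedSpheres

open SingerRA

/-- The Singer conjecture for the real moment-angle manifolds `Z` (with universal covering the
Davis complex of the right-angled Coxeter group) of the flag triangulations `L` of the
`(n-1)`-sphere in the class `CrossSub n` (iterated edge subdivisions of the boundary of the
cross-polytope), and, more generally, in the class `Tame n`, which contains, for even `n`, every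
flag sphere all of whose vertex links are in `Tame (n-1)`. -/
theorem result (n : ℕ) (V : Type) [Fintype V] [LinearOrder V] (G : SimpleGraph V)
    (h : CrossSub n G ∨ (Tame n G ∧ HomSphere n G ∧ Nonempty (Cone G ≃ₜ (Fin n → ℝ)))) :
    IsClosedManifold n G ∧ IsUniversalCover G ∧ IsCubed G ∧
    (∀ k, 2 * k ≠ n → l2Betti G k = 0) ∧
    (∀ k, 2 * k = n → l2Betti G k = (-1 : ℝ) ^ k * (chi G : ℝ)) ∧
    ((∀ k, l2Betti G k = 0) ↔ chi G = 0) := by
  refine ⟨?_, ⟨contractible_davis G, isCoveringMap_proj G, surjective_proj G,
    continuous_dact G, proj_eq_iff G, dact_free G⟩, exists_cells G, ?_⟩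
  · rcases h with h | h
    · exact closed_manifold h
    · exact closed_manifold_of_cone h.2.2
  · rcases h with h | h
    · exact good_l2 h.good
    · exact l2_of_small (fun k hk => small_of_tame h.1 h.2.1 k hk)

end Pool.Agent.Lib_MP_394d50_gt.Old.SubdividedSpheres
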