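import Mathlib
import Pool.Agent.Lib_MP_394d50_cmb.CHier

set_option autoImplicit false

namespace Pool.Agent.Lib_MP_394d50_gt.Old.Walls

open SingerVS SingerRN SingerCub
open scoped Pointwise

/-- The conclusions. The `ℓ²`-Betti numbers vanish in all degrees `k` with `2 k ∉ {n - 1, n, n + 1}`. If
`n` is even, or if `mid` holds, they vanish for `2 k ≠ n`, the one in the middle dimension is the Euler
characteristic up to the sign `(-1)ᵏ`, and all of them vanish if and only if the Euler characteristic
is zero. -/
def Concl (n : ℕ) (Γ : Type) [Group Γ] {P : Type} [LinearOrder P] [MulAction Γ P]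
    (X : Set (Finset P)) (mid : Prop) : Prop :=
  (∀ k, 2 * k + 1 ≠ n → 2 * k ≠ n → 2 * k ≠ n + 1 → bettiX Γ X k = 0) ∧
  ((Even n ∨ mid) →
    (∀ k, 2 * k ≠ n → bettiX Γ X k = 0) ∧
    (∀ k, 2 * k = n → bettiX Γ X k = (-1 : ℝ) ^ k * (chiX Γ X : ℝ)) ∧
    ((∀ k, bettiX Γ X k = 0) ↔ chiX Γ X = 0) ∧
    ∀ k, 2 * k = n → 0 ≤ (-1) ^ k * chiX Γ X)

/-- The Singer conjecture for closed aspherical manifolds with a hierarchy of walls. There is no
hypothesis on the fundamental group `Γ` itself, only on the stabilisers of the walls and of the
chambers (the connected components of the complement of the walls in the universal covering).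

`X` is the universal covering of the closed aspherical `n`-manifold `geo X / Γ` (a simplicial complex
with a free action of `Γ`, with finitely many orbits), and `Y i`, `i : ι`, is a `Γ`-equivariant locally
finite family of subcomplexes (walls), of levels `lv i`. `Hier`: for every intersection `Z` of `j` walls
of the same level, and the union `W` of the walls of smaller level, with `Z ⊄ W`, `Z` is contractible
and a homology manifold with boundary `Z ∩ W` of dimension at least `n - j` (or, more generally, the
pair `(Z, Z ∩ W)` has no locally finite homology over `F₂` below the dimension `n - j`). `GoodH`: one of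
the walls has a virtually residually (amenable, left-orderable, residually finite) stabiliser, or the
pair `(Z, Z ∩ W)` has no `ℓ²`-homology below the middle dimension. `GoodK`: the same for the chambers.

Second part: every CAT(0) cube complex (given by its half-spaces, `HS`) which is an `n`-manifold (or a
homology `n`-manifold over `F₂`), with its hyperplanes as walls. Here the chambers are cells, and
there is a hypothesis on the stabilisers of the hyperplanes only. -/
theorem result (n : ℕ) (Γ : Type) [Group Γ] :
    (∀ (P ι : Type) (_ : LinearOrder P) (_ : MulAction Γ P) (_ : MulAction Γ ι)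
      (X : Set (Finset P)) (Y : ι → Set (Finset P)) (lv : ι → ℕ), FreeCx Γ X →
      (ContractibleSpace (geo X) ∨ Acyc X) → (LocEuc n (geo X) ∨ HomMfd n X) →
      Hier n Γ X Y lv → GoodH n Γ Y lv → GoodK n Γ X Y →
      Concl n Γ X (∀ i, NH (simpCx (Y i \ low Y lv (lv i)) (fun x y : P => x < y)) Set.univ
        ((n - 1) / 2))) ∧
    (∀ (H : Type) (_ : MulAction Γ H) (_ : LinearOrder (Cb H)) (st : H → H) (V : Set (Set H)),
      HS st Set.univ V → (∀ (g : Γ) (h : H), st (g • h) = g • st h) →
      (∀ (g : Γ), ∀ v ∈ V, g • v ∈ V) → FreeCx Γ (cubX st Set.univ V) →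
      (LocEuc n (geo (cubX st Set.univ V)) ∨ HomMfd n (cubX st Set.univ V)) →
      GoodW n Γ (hyp st Set.univ V) →
      Concl n Γ (cubX st Set.univ V) (∀ h, (hyp st Set.univ V h).Nonempty →
        bettiX (MulAction.stabilizer Γ h) (hyp st Set.univ V h) ((n - 1) / 2) = 0)) := by
  refine ⟨?_, ?_⟩
  · intro P ι i1 i2 i3 X Y lv hX hA hM hW hG hC
    exact main_hier hX (acyc_or hX hA) (homMfd_or hX hM) (wallsH_of_hier hX hW) hG hC
  · intro H i1 i2 st V hV hst hVg hX hM hG
    exact main_cub hV hst hVg hX hM hG

end Pool.Agent.Lib_MP_394d50_gt.Old.Walls
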